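import Mathlib

set_option autoImplicit false

/-!
# MP_e714e3_pr : the mean abandonment rate in the M/M/m+M queue is strictly convex

We work with `B(lam) = E min(X, m)` (mean number of busy servers); flow balance gives
`ell(lam) = lam - mu * B(lam)`.  The solution `D` of the Poisson equation is given explicitly, it is
strictly decreasing in the state and nonincreasing in the arrival rate, and `B' = E D`.
-/

namespace Pool.Agent.Results.MP_e714e3_pr.ConvexAbandonment

open Filter Topology Set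

/-! ### Statement -/

/-- The two disciplines: deadline to the beginning of service (`DBS`), deadline to the end of
service (`DES`). -/
inductive Discipline
  | DBS
  | DES

/-- Total abandonment rate with `i` jobs present: `(i-m)^+ θ` under DBS, `i θ` under DES. -/
noncomputable def L (D : Discipline) (m : ℕ) (θ : ℝ) (i : ℕ) : ℝ :=
  match D with
  | .DBS => max ((i : ℝ) - m) 0 * θ
  | .DES => (i : ℝ) * θ

/-- Death rate `d_i = min(i,m) μ + L(i)`. -/
noncomputable def deathRate (D : Discipline) (m : ℕ) (μ θ : ℝ) (i : ℕ) : ℝ :=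
  min (i : ℝ) (m : ℝ) * μ + L D m θ i

/-- The unnormalised stationary weights `∏_{j=1}^i lam/d_j`. -/
noncomputable def weight (D : Discipline) (m : ℕ) (μ θ lam : ℝ) (i : ℕ) : ℝ :=
  ∏ j ∈ Finset.Icc 1 i, lam / deathRate D m μ θ j

/-- The stationary law `π_i`. -/
noncomputable def statLaw (D : Discipline) (m : ℕ) (μ θ lam : ℝ) (i : ℕ) : ℝ :=
  weight D m μ θ lam i / ∑' k, weight D m μ θ lam k

/-- The mean abandonment rate `ℓ(lam) = ∑_i π_i L(i)`. -/
noncomputable def ell (D : Discipline) (m : ℕ) (μ θ : ℝ) (lam : ℝ) : ℝ :=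
  ∑' i, statLaw D m μ θ lam i * L D m θ i

/-! ### Power series with rapidly decreasing coefficients -/

/-- `c` has infinite radius of convergence. -/
def Rap (c : ℕ → ℝ) : Prop := ∀ R : ℝ, 0 ≤ R → Summable (fun i => |c i| * R ^ i)

noncomputable def ser (c : ℕ → ℝ) (x : ℝ) : ℝ := ∑' i, c i * x ^ i

lemma Rap.summable {c : ℕ → ℝ} (hc : Rap c) (x : ℝ) : Summable (fun i => c i * x ^ i) := by
  have h := hc |x| (abs_nonneg x)
  refine Summable.of_norm_bounded h ?_
  intro i
  rw [Real.norm_eq_abs, abs_mul, abs_pow]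

lemma Rap.deriv {c : ℕ → ℝ} (hc : Rap c) (x : ℝ) :
    Summable (fun i => c i * (i * x ^ (i - 1))) ∧
    HasDerivAt (ser c) (∑' i, c i * (i * x ^ (i - 1))) x := by
  set R : ℝ := |x| + 1 with hR
  have hR1 : 1 ≤ R := by have := abs_nonneg x; linarith
  have hu : Summable (fun i => |c i| * (2 * R) ^ i) := hc (2 * R) (by linarith)
  have hb : ∀ (n : ℕ) (y : ℝ), y ∈ Metric.ball (0 : ℝ) R →
      ‖c n * (n * y ^ (n - 1))‖ ≤ |c n| * (2 * R) ^ n := by
    intro n y hy
    have hy' : |y| ≤ R := by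
      have := Metric.mem_ball.mp hy
      rw [dist_zero_right, Real.norm_eq_abs] at this
      exact this.le
    rw [Real.norm_eq_abs, abs_mul, abs_mul, abs_pow, Nat.abs_cast]
    refine mul_le_mul_of_nonneg_left ?_ (abs_nonneg _)
    have h1 : (n : ℝ) ≤ 2 ^ n := by exact_mod_cast Nat.lt_two_pow_self.le
    have h2 : |y| ^ (n - 1) ≤ R ^ n := by
      calc |y| ^ (n - 1) ≤ R ^ (n - 1) := pow_le_pow_left₀ (abs_nonneg _) hy' _
        _ ≤ R ^ n := pow_le_pow_right₀ hR1 (Nat.sub_le _ _)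
    rw [mul_pow]
    exact mul_le_mul h1 h2 (pow_nonneg (abs_nonneg _) _) (by positivity)
  have hx : x ∈ Metric.ball (0 : ℝ) R := by
    rw [Metric.mem_ball, dist_zero_right, Real.norm_eq_abs]; linarith
  refine ⟨Summable.of_norm_bounded hu (fun i => hb i x hx), ?_⟩
  refine hasDerivAt_tsum_of_isPreconnected (u := fun i => |c i| * (2 * R) ^ i) (t := Metric.ball 0 R)
    (y₀ := 0) hu Metric.isOpen_ball
    (convex_ball (0 : ℝ) R).isPreconnected ?_ hb (Metric.mem_ball_self (by linarith)) (hc.summable 0) hx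
  intro n y _
  exact (hasDerivAt_pow n y).const_mul (c n)

lemma Rap.analytic {c : ℕ → ℝ} (hc : Rap c) (x : ℝ) : AnalyticAt ℝ (ser c) x := by
  set p : FormalMultilinearSeries ℝ ℝ ℝ := FormalMultilinearSeries.ofScalars ℝ c with hp
  have hrad : p.radius = ⊤ := by
    apply FormalMultilinearSeries.radius_eq_top_of_summable_norm
    intro r
    have := hc r r.2
    refine this.congr ?_
    intro n
    rw [hp, FormalMultilinearSeries.ofScalars_norm]; rfl
  have h := p.hasFPowerSeriesOnBall (by rw [hrad]; exact ENNReal.zero_lt_top)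
  have h2 : p.sum = ser c := by
    funext y
    unfold ser
    rw [FormalMultilinearSeries.sum]
    refine tsum_congr ?_
    intro n
    rw [hp, FormalMultilinearSeries.ofScalars_apply_eq]
    simp [smul_eq_mul]
  rw [h2, hrad] at h
  exact h.analyticAt_of_mem (by simp)


/-! ### Chebyshev type lemmas -/

/-- partial sums of `q f` are nonnegative if `f` is antitone with total `0`. -/
lemma partial_nonneg {q f : ℕ → ℝ} (hq : ∀ i, 0 < q i) (hf : Antitone f)
    (hs : HasSum (fun i => q i * f i) 0) (n : ℕ) : 0 ≤ ∑ i ∈ Finset.range n, q i * f i := by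
  by_cases h : ∀ i < n, 0 ≤ f i
  · exact Finset.sum_nonneg fun i hi => mul_nonneg (hq i).le (h i (Finset.mem_range.mp hi))
  · push Not at h
    obtain ⟨i, hi, hfi⟩ := h
    have h1 := hs.summable.sum_add_tsum_nat_add n
    rw [hs.tsum_eq] at h1
    have h2 : ∑' j, q (j + n) * f (j + n) ≤ 0 := by
      refine tsum_nonpos fun j => ?_
      have : f (j + n) ≤ f i := hf (by omega)
      exact mul_nonpos_of_nonneg_of_nonpos (hq _).le (by linarith)
    linarith

/-- stochastic monotonicity. -/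
lemma stoch_mono {q f : ℕ → ℝ} (hq : ∀ i, 0 < q i) (hf : StrictAnti f)
    (hs : HasSum (fun i => q i * f i) 0) {r : ℝ} (hr : 1 < r)
    (hs2 : Summable (fun i => q i * r ^ i * f i)) : ∑' i, q i * r ^ i * f i < 0 := by
  have hr0 : 0 < r := by linarith
  -- there is an index with f < 0
  have hneg : ∃ i, f i < 0 := by
    by_contra hcon
    push Not at hcon
    have h1 : 0 < f 0 := lt_of_le_of_lt (hcon 1) (hf (by norm_num))
    have h2 : 0 < ∑' i, q i * f i :=
      hs.summable.tsum_pos (fun i => mul_nonneg (hq i).le (hcon i)) 0 (mul_pos (hq 0) h1)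
    rw [hs.tsum_eq] at h2
    exact lt_irrefl _ h2
  classical
  set k := Nat.find hneg with hk
  have hk1 : f k < 0 := Nat.find_spec hneg
  have hk2 : ∀ i < k, 0 ≤ f i := fun i hi => not_lt.mp (Nat.find_min hneg hi)
  have key : ∀ i, q i * r ^ i * f i ≤ r ^ k * (q i * f i) := by
    intro i
    have : r ^ i * f i ≤ r ^ k * f i := by
      rcases lt_or_ge i k with h | h
      · exact mul_le_mul_of_nonneg_right (pow_le_pow_right₀ hr.le h.le) (hk2 i h)
      · have h3 : f i ≤ 0 := le_trans (hf.antitone h) hk1.le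
        exact mul_le_mul_of_nonpos_right (pow_le_pow_right₀ hr.le h) h3
    nlinarith [hq i]
  have key2 : q (k + 1) * r ^ (k + 1) * f (k + 1) < r ^ k * (q (k + 1) * f (k + 1)) := by
    have h3 : f (k + 1) < 0 := lt_trans (hf (Nat.lt_succ_self k)) hk1
    have h4 : r ^ k < r ^ (k + 1) := pow_lt_pow_right₀ hr (Nat.lt_succ_self k)
    have h5 : q (k + 1) * f (k + 1) < 0 := mul_neg_of_pos_of_neg (hq _) h3
    nlinarith
  have h6 : ∑' i, q i * r ^ i * f i < ∑' i, r ^ k * (q i * f i) :=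
    Summable.tsum_lt_tsum key key2 hs2 (hs.summable.mul_left _)
  rw [tsum_mul_left, hs.tsum_eq, mul_zero] at h6
  exact h6

/-! ### The birth and death weights -/

section core

variable (m : ℕ) (ν θ : ℝ)

noncomputable def gg (i : ℕ) : ℝ := ((min i m : ℕ) : ℝ)
noncomputable def dd (i : ℕ) : ℝ := ν * gg m i + θ * ((i - m : ℕ) : ℝ)
noncomputable def aa (i : ℕ) : ℝ := ∏ j ∈ Finset.range i, (dd m ν θ (j + 1))⁻¹
noncomputable def q (x : ℝ) (i : ℕ) : ℝ := aa m ν θ i * x ^ i

lemma gg_le (i : ℕ) : gg m i ≤ m := by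
  unfold gg; exact_mod_cast min_le_right _ _

lemma gg_nonneg (i : ℕ) : 0 ≤ gg m i := Nat.cast_nonneg _

lemma gg_mono : Monotone (gg m) := by
  intro i j h
  unfold gg
  exact_mod_cast min_le_min_right m h

lemma gg_of_le {i : ℕ} (h : i ≤ m) : gg m i = i := by
  unfold gg; rw [min_eq_left h]

lemma gg_of_ge {i : ℕ} (h : m ≤ i) : gg m i = m := by
  unfold gg; rw [min_eq_right h]

lemma dd_zero : dd m ν θ 0 = 0 := by simp [dd, gg]

variable (hm : 1 ≤ m) (hν : 0 < ν) (hθ : 0 < θ)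

include hν hθ in
lemma dd_strict : StrictMono (dd m ν θ) := by
  refine strictMono_nat_of_lt_succ fun i => ?_
  unfold dd
  rcases lt_or_ge i m with h | h
  · rw [gg_of_le m h.le, gg_of_le m (show i + 1 ≤ m from h), Nat.sub_eq_zero_of_le h.le,
      Nat.sub_eq_zero_of_le (show i + 1 ≤ m from h)]
    push_cast; nlinarith
  · rw [gg_of_ge m h, gg_of_ge m (show m ≤ i + 1 by omega), show i + 1 - m = (i - m) + 1 by omega]
    push_cast; nlinarith

include hν hθ in
lemma dd_pos (i : ℕ) : 0 < dd m ν θ (i + 1) := by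
  have := dd_strict m ν θ hν hθ (show 0 < i + 1 by omega)
  rwa [dd_zero] at this

lemma dd_ge (i : ℕ) : min ν θ * i ≤ dd m ν θ i := by
  unfold dd
  have h1 : (i : ℝ) = gg m i + ((i - m : ℕ) : ℝ) := by
    unfold gg; exact_mod_cast (by omega : i = min i m + (i - m))
  have h2 : min ν θ ≤ ν := min_le_left _ _
  have h3 : min ν θ ≤ θ := min_le_right _ _
  have h4 := gg_nonneg m i
  have h5 : (0 : ℝ) ≤ ((i - m : ℕ) : ℝ) := Nat.cast_nonneg _
  rw [h1, mul_add]
  exact add_le_add (mul_le_mul_of_nonneg_right h2 h4) (mul_le_mul_of_nonneg_right h3 h5)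

lemma aa_succ (i : ℕ) : aa m ν θ (i + 1) = aa m ν θ i * (dd m ν θ (i + 1))⁻¹ := by
  unfold aa; rw [Finset.prod_range_succ]

include hν hθ in
lemma aa_pos (i : ℕ) : 0 < aa m ν θ i :=
  Finset.prod_pos fun j _ => inv_pos.mpr (dd_pos m ν θ hν hθ j)

include hν hθ in
lemma aa_le (i : ℕ) : aa m ν θ i ≤ ((min ν θ)⁻¹) ^ i / (i.factorial : ℝ) := by
  have hc : 0 < min ν θ := lt_min hν hθ
  induction i with
  | zero => simp [aa]
  | succ i ih =>
    rw [aa_succ, Nat.factorial_succ, pow_succ]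
    push_cast
    have h1 : (dd m ν θ (i + 1))⁻¹ ≤ (min ν θ)⁻¹ * ((i : ℝ) + 1)⁻¹ := by
      rw [← mul_inv]
      have := dd_ge m ν θ (i + 1)
      push_cast at this
      exact inv_anti₀ (by positivity) this
    calc aa m ν θ i * (dd m ν θ (i + 1))⁻¹
        ≤ ((min ν θ)⁻¹ ^ i / (i.factorial : ℝ)) * ((min ν θ)⁻¹ * ((i : ℝ) + 1)⁻¹) :=
          mul_le_mul ih h1 (inv_nonneg.mpr (dd_pos m ν θ hν hθ i).le) (by positivity)
      _ = _ := by
          field_simp

include hν hθ in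
lemma rap_of_bdd (b : ℕ → ℝ) (C : ℝ) (hb : ∀ i, |b i| ≤ C) : Rap (fun i => b i * aa m ν θ i) := by
  intro R hR
  have h1 : Summable (fun i : ℕ => C * (((min ν θ)⁻¹ * R) ^ i / (i.factorial : ℝ))) :=
    (Real.summable_pow_div_factorial _).mul_left C
  refine Summable.of_nonneg_of_le (fun i => by positivity) ?_ h1
  intro i
  have h2 := aa_le m ν θ hν hθ i
  have h3 := (aa_pos m ν θ hν hθ i).le
  have hC : 0 ≤ C := le_trans (abs_nonneg _) (hb 0)
  rw [abs_mul, abs_of_nonneg h3, mul_pow]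
  calc |b i| * aa m ν θ i * R ^ i ≤ C * ((min ν θ)⁻¹ ^ i / (i.factorial : ℝ)) * R ^ i := by
        refine mul_le_mul_of_nonneg_right ?_ (pow_nonneg hR i)
        exact mul_le_mul (hb i) h2 h3 hC
    _ = _ := by ring


noncomputable def ZZ (x : ℝ) : ℝ := ∑' i, q m ν θ x i
noncomputable def BB (x : ℝ) : ℝ := (∑' i, gg m i * q m ν θ x i) / ZZ m ν θ x

include hν hθ in
lemma q_pos {x : ℝ} (hx : 0 < x) (i : ℕ) : 0 < q m ν θ x i :=
  mul_pos (aa_pos m ν θ hν hθ i) (pow_pos hx i)

include hν hθ in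
lemma q_succ (x : ℝ) (i : ℕ) : dd m ν θ (i + 1) * q m ν θ x (i + 1) = x * q m ν θ x i := by
  unfold q
  rw [aa_succ, pow_succ]
  have := (dd_pos m ν θ hν hθ i).ne'
  field_simp

lemma q_zero (x : ℝ) : q m ν θ x 0 = 1 := by simp [q, aa]

include hν hθ in
lemma rap_aa : Rap (aa m ν θ) := by
  have := rap_of_bdd m ν θ hν hθ (fun _ => 1) 1 (by simp)
  simpa using this

include hν hθ in
lemma rap_gaa : Rap (fun i => gg m i * aa m ν θ i) :=
  rap_of_bdd m ν θ hν hθ (gg m) m (fun i => by rw [abs_of_nonneg (gg_nonneg m i)]; exact gg_le m i)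

include hν hθ in
lemma q_summable (x : ℝ) : Summable (q m ν θ x) := (rap_aa m ν θ hν hθ).summable x

include hν hθ in
lemma qf_summable (x : ℝ) (f : ℕ → ℝ) (C : ℝ) (hf : ∀ i, |f i| ≤ C) :
    Summable (fun i => q m ν θ x i * f i) := by
  have := (rap_of_bdd m ν θ hν hθ f C hf).summable x
  refine this.congr fun i => ?_
  unfold q; ring

include hν hθ in
lemma iqf_summable (x : ℝ) (f : ℕ → ℝ) (C : ℝ) (hf : ∀ i, |f i| ≤ C) :
    Summable (fun i : ℕ => (i : ℝ) * (q m ν θ x i * f i)) := by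
  have := ((rap_of_bdd m ν θ hν hθ f C hf).deriv x).1.mul_left x
  refine this.congr fun i => ?_
  unfold q
  rcases Nat.eq_zero_or_pos i with rfl | hi
  · simp
  · have : x ^ i = x * x ^ (i - 1) := by rw [← pow_succ']; congr 1; omega
    rw [this]; ring

include hν hθ in
lemma ZZ_pos {x : ℝ} (hx : 0 < x) : 0 < ZZ m ν θ x :=
  (q_summable m ν θ hν hθ x).tsum_pos (fun i => (q_pos m ν θ hν hθ hx i).le) 0
    (q_pos m ν θ hν hθ hx 0)

include hν hθ in
lemma gq_summable (x : ℝ) : Summable (fun i => gg m i * q m ν θ x i) := by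
  have := qf_summable m ν θ hν hθ x (gg m) m
    (fun i => by rw [abs_of_nonneg (gg_nonneg m i)]; exact gg_le m i)
  exact this.congr fun i => mul_comm _ _

include hν hθ in
lemma hasSum_center {x : ℝ} (hx : 0 < x) :
    HasSum (fun i => q m ν θ x i * (BB m ν θ x - gg m i)) 0 := by
  have h1 := ((q_summable m ν θ hν hθ x).hasSum.mul_left (BB m ν θ x)).sub
    (gq_summable m ν θ hν hθ x).hasSum
  have h2 : BB m ν θ x * ∑' i, q m ν θ x i - ∑' i, gg m i * q m ν θ x i = 0 := by
    unfold BB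
    have : ZZ m ν θ x ≠ 0 := (ZZ_pos m ν θ hν hθ hx).ne'
    change _ / ZZ m ν θ x * ZZ m ν θ x - _ = 0
    rw [div_mul_cancel₀ _ this, sub_self]
  rw [h2] at h1
  have h3 : (fun i => q m ν θ x i * (BB m ν θ x - gg m i)) =
      fun i => BB m ν θ x * q m ν θ x i - gg m i * q m ν θ x i := by funext i; ring
  rw [h3]; exact h1


include hν hθ in
lemma BB_lt_m (hm : 1 ≤ m) {x : ℝ} (hx : 0 < x) : BB m ν θ x < m := by
  unfold BB
  rw [div_lt_iff₀ (ZZ_pos m ν θ hν hθ hx), ZZ, ← tsum_mul_left]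
  refine Summable.tsum_lt_tsum (i := 0) (fun i => ?_) ?_ (gq_summable m ν θ hν hθ x)
    ((q_summable m ν θ hν hθ x).mul_left _)
  · exact mul_le_mul_of_nonneg_right (gg_le m i) (q_pos m ν θ hν hθ hx i).le
  · have : gg m 0 = 0 := by simp [gg]
    rw [this, zero_mul, q_zero, mul_one]
    exact_mod_cast hm

include hν hθ in
lemma BB_pos (hm : 1 ≤ m) {x : ℝ} (hx : 0 < x) : 0 < BB m ν θ x := by
  unfold BB
  refine div_pos ?_ (ZZ_pos m ν θ hν hθ hx)
  refine (gq_summable m ν θ hν hθ x).tsum_pos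
    (fun i => mul_nonneg (gg_nonneg m i) (q_pos m ν θ hν hθ hx i).le) 1
    (mul_pos ?_ (q_pos m ν θ hν hθ hx 1))
  rw [gg_of_le m hm]; norm_num

include hν hθ in
/-- total death rate equals total birth rate -/
lemma hasSum_death {x : ℝ} :
    HasSum (fun i => dd m ν θ i * q m ν θ x i) (x * ZZ m ν θ x) := by
  have h1 : HasSum (fun i => dd m ν θ (i + 1) * q m ν θ x (i + 1)) (x * ZZ m ν θ x) := by
    rw [show (fun i => dd m ν θ (i + 1) * q m ν θ x (i + 1)) = fun i => x * q m ν θ x i from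
      funext fun i => q_succ m ν θ hν hθ x i]
    exact (q_summable m ν θ hν hθ x).hasSum.mul_left x
  rw [hasSum_nat_add_iff (f := fun i => dd m ν θ i * q m ν θ x i) 1] at h1
  simpa [dd_zero] using h1

include hν hθ in
lemma nu_BB_lt {x : ℝ} (hx : 0 < x) : ν * BB m ν θ x < x := by
  have hZ := ZZ_pos m ν θ hν hθ hx
  have h1 := hasSum_death m ν θ hν hθ (x := x)
  have h2 : ν * BB m ν θ x = (∑' i, ν * gg m i * q m ν θ x i) / ZZ m ν θ x := by
    unfold BB
    rw [mul_div_assoc']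
    congr 1
    rw [← tsum_mul_left]
    exact tsum_congr fun i => by ring
  rw [h2, div_lt_iff₀ hZ, ← h1.tsum_eq]
  have hs : Summable (fun i => ν * gg m i * q m ν θ x i) := by
    have := (gq_summable m ν θ hν hθ x).mul_left ν
    exact this.congr fun i => by ring
  refine Summable.tsum_lt_tsum (i := m + 1) (fun i => ?_) ?_ hs h1.summable
  · refine mul_le_mul_of_nonneg_right ?_ (q_pos m ν θ hν hθ hx i).le
    unfold dd
    have : (0 : ℝ) ≤ ((i - m : ℕ) : ℝ) := Nat.cast_nonneg _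
    nlinarith
  · refine mul_lt_mul_of_pos_right ?_ (q_pos m ν θ hν hθ hx _)
    unfold dd
    rw [show m + 1 - m = 1 by omega]
    push_cast; linarith

/-- solution of the Poisson equation -/
noncomputable def DD (x : ℝ) : ℕ → ℝ
  | 0 => BB m ν θ x / x
  | i + 1 => (dd m ν θ (i + 1) * DD x i + BB m ν θ x - gg m (i + 1)) / x

include hν hθ in
lemma DD_sum {x : ℝ} (hx : 0 < x) (i : ℕ) : x * (q m ν θ x i * DD m ν θ x i) =
    ∑ k ∈ Finset.range (i + 1), q m ν θ x k * (BB m ν θ x - gg m k) := by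
  induction i with
  | zero =>
    simp only [DD, zero_add, Finset.sum_range_one, q_zero]
    have : gg m 0 = 0 := by simp [gg]
    rw [this]; field_simp; ring
  | succ i ih =>
    rw [Finset.sum_range_succ, ← ih]
    have h1 := q_succ m ν θ hν hθ x i
    simp only [DD]
    field_simp
    have h2 : q m ν θ x (i + 1) * (dd m ν θ (i + 1) * DD m ν θ x i + BB m ν θ x - gg m (i + 1)) =
      (dd m ν θ (i + 1) * q m ν θ x (i + 1)) * DD m ν θ x i +
        q m ν θ x (i + 1) * (BB m ν θ x - gg m (i + 1)) := by ring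
    rw [h2, h1]; ring

include hν hθ in
lemma DD_nonneg {x : ℝ} (hx : 0 < x) (i : ℕ) : 0 ≤ DD m ν θ x i := by
  have h1 := DD_sum m ν θ hν hθ hx i
  have h2 := partial_nonneg (q_pos m ν θ hν hθ hx)
    (f := fun k => BB m ν θ x - gg m k) (fun a b h => by
      have := gg_mono m h; simp only; linarith) (hasSum_center m ν θ hν hθ hx) (i + 1)
  rw [← h1] at h2
  have h3 := q_pos m ν θ hν hθ hx i
  by_contra hcon
  push Not at hcon
  have : x * (q m ν θ x i * DD m ν θ x i) < 0 :=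
    mul_neg_of_pos_of_neg hx (mul_neg_of_pos_of_neg h3 hcon)
  linarith

include hν hθ in
/-- first regime -/
lemma DD_low {x : ℝ} (hx : 0 < x) (i : ℕ) (hi : i + 1 ≤ m) :
    DD m ν θ x i < 1 / ν ∧ DD m ν θ x (i + 1) < DD m ν θ x i := by
  have hB := nu_BB_lt m ν θ hν hθ hx
  have hd : ∀ j, j + 1 ≤ m → dd m ν θ (j + 1) = ν * (j + 1) := by
    intro j hj
    unfold dd
    rw [gg_of_le m hj, Nat.sub_eq_zero_of_le hj]; push_cast; ring
  have hrec : ∀ j, j + 1 ≤ m → 1 / ν - DD m ν θ x (j + 1) =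
      (1 / ν - BB m ν θ x / x) + ν * (j + 1) / x * (1 / ν - DD m ν θ x j) := by
    intro j hj
    simp only [DD]
    rw [hd j hj, gg_of_le m hj]
    push_cast
    field_simp
    ring
  have h0 : 0 < 1 / ν - BB m ν θ x / x := by
    rw [sub_pos, div_lt_div_iff₀ hx hν]; linarith
  induction i with
  | zero =>
    have h1 : DD m ν θ x 0 = BB m ν θ x / x := rfl
    have h2 := hrec 0 hi
    rw [h1] at h2 ⊢
    refine ⟨by linarith, ?_⟩
    have h3 : 0 < ν * ((0 : ℕ) + 1) / x * (1 / ν - BB m ν θ x / x) := by positivity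
    linarith
  | succ i ih =>
    obtain ⟨h1, h2⟩ := ih (by omega)
    have h3 := hrec (i + 1) hi
    have h4 := hrec i (by omega)
    refine ⟨by linarith, ?_⟩
    have h5 : 0 < ν * ((i : ℝ) + 1) / x := by positivity
    have h6 : ν * (((i + 1 : ℕ) : ℝ) + 1) / x = ν * ((i : ℝ) + 1) / x + ν / x := by
      push_cast; ring
    rw [h6] at h3
    have h7 : 0 < ν / x := by positivity
    nlinarith

include hν hθ in
/-- second regime -/
lemma DD_high (hm : 1 ≤ m) {x : ℝ} (hx : 0 < x) (i : ℕ) (hi : m ≤ i + 1) :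
    DD m ν θ x (i + 1) < DD m ν θ x i := by
  have hB := BB_lt_m m ν θ hν hθ hm hx
  have hc := hasSum_center m ν θ hν hθ hx
  have hform : ∀ j, m ≤ j + 1 → x * (q m ν θ x j * DD m ν θ x j) =
      (m - BB m ν θ x) * ∑' k, q m ν θ x (k + (j + 1)) := by
    intro j hj
    rw [DD_sum m ν θ hν hθ hx j]
    have h1 := hc.summable.sum_add_tsum_nat_add (j + 1)
    rw [hc.tsum_eq] at h1
    have h2 : ∑' k, q m ν θ x (k + (j + 1)) * (BB m ν θ x - gg m (k + (j + 1))) =
        - ((m - BB m ν θ x) * ∑' k, q m ν θ x (k + (j + 1))) := by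
      rw [← tsum_mul_left, ← tsum_neg]
      refine tsum_congr fun k => ?_
      rw [gg_of_ge m (show m ≤ k + (j + 1) by omega)]; ring
    rw [h2] at h1
    linarith
  have h1 := hform i hi
  have h2 := hform (i + 1) (by omega)
  have hqi := q_pos m ν θ hν hθ hx i
  have hqi1 := q_pos m ν θ hν hθ hx (i + 1)
  have hs : ∀ n, Summable (fun k => q m ν θ x (k + n)) := fun n =>
    (summable_nat_add_iff n).mpr (q_summable m ν θ hν hθ x)
  have key : q m ν θ x i * ∑' k, q m ν θ x (k + (i + 1 + 1)) <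
      q m ν θ x (i + 1) * ∑' k, q m ν θ x (k + (i + 1)) := by
    rw [← tsum_mul_left, ← tsum_mul_left]
    have hlt : ∀ k, q m ν θ x i * q m ν θ x (k + (i + 1 + 1)) <
        q m ν θ x (i + 1) * q m ν θ x (k + (i + 1)) := by
      intro k
      have e1 := q_succ m ν θ hν hθ x i
      have e2 := q_succ m ν θ hν hθ x (k + (i + 1))
      have d1 := dd_pos m ν θ hν hθ i
      have d2 := dd_strict m ν θ hν hθ (show i + 1 < k + (i + 1) + 1 by omega)
      have d3 := q_pos m ν θ hν hθ hx (k + (i + 1) + 1)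
      rw [show k + (i + 1 + 1) = k + (i + 1) + 1 by omega]
      have e3 : x * (q m ν θ x i * q m ν θ x (k + (i + 1) + 1)) <
          x * (q m ν θ x (i + 1) * q m ν θ x (k + (i + 1))) := by
        calc x * (q m ν θ x i * q m ν θ x (k + (i + 1) + 1))
            = dd m ν θ (i + 1) * (q m ν θ x (i + 1) * q m ν θ x (k + (i + 1) + 1)) := by
              rw [← mul_assoc, ← e1]; ring
          _ < dd m ν θ (k + (i + 1) + 1) * (q m ν θ x (i + 1) * q m ν θ x (k + (i + 1) + 1)) :=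
              mul_lt_mul_of_pos_right d2 (mul_pos hqi1 d3)
          _ = x * (q m ν θ x (i + 1) * q m ν θ x (k + (i + 1))) := by
              rw [show dd m ν θ (k + (i + 1) + 1) * (q m ν θ x (i + 1) * q m ν θ x (k + (i + 1) + 1))
                = q m ν θ x (i + 1) * (dd m ν θ (k + (i + 1) + 1) * q m ν θ x (k + (i + 1) + 1)) by ring,
                e2]; ring
      exact lt_of_mul_lt_mul_left e3 hx.le
    exact Summable.tsum_lt_tsum (i := 0) (fun k => (hlt k).le) (hlt 0)
      ((hs _).mul_left _) ((hs _).mul_left _)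
  have hBpos : 0 < (m : ℝ) - BB m ν θ x := by linarith
  by_contra hcon
  push Not at hcon
  -- x q_i q_{i+1} D_i = (m-B) q_{i+1} S_i ; x q_i q_{i+1} D_{i+1} = (m-B) q_i S_{i+1}
  have h3 : x * (q m ν θ x i * q m ν θ x (i + 1)) * DD m ν θ x i =
      (m - BB m ν θ x) * (q m ν θ x (i + 1) * ∑' k, q m ν θ x (k + (i + 1))) := by
    calc _ = q m ν θ x (i + 1) * (x * (q m ν θ x i * DD m ν θ x i)) := by ring
      _ = _ := by rw [h1]; ring
  have h4 : x * (q m ν θ x i * q m ν θ x (i + 1)) * DD m ν θ x (i + 1) =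
      (m - BB m ν θ x) * (q m ν θ x i * ∑' k, q m ν θ x (k + (i + 1 + 1))) := by
    calc _ = q m ν θ x i * (x * (q m ν θ x (i + 1) * DD m ν θ x (i + 1))) := by ring
      _ = _ := by rw [h2]; ring
  have h5 : 0 < x * (q m ν θ x i * q m ν θ x (i + 1)) := by positivity
  have h6 := mul_le_mul_of_nonneg_left hcon h5.le
  rw [h3, h4] at h6
  have h7 := mul_lt_mul_of_pos_left key hBpos
  linarith

include hν hθ in
lemma DD_strictAnti (hm : 1 ≤ m) {x : ℝ} (hx : 0 < x) : StrictAnti (DD m ν θ x) := by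
  refine strictAnti_nat_of_succ_lt fun i => ?_
  rcases Nat.lt_or_ge (i + 1) m with h | h
  · exact (DD_low m ν θ hν hθ hx i h.le).2
  · exact DD_high m ν θ hν hθ hm hx i h


/-! ### derivatives -/

/-- the derivative of `BB` -/
noncomputable def B1 (x : ℝ) : ℝ :=
  (∑' i : ℕ, (i : ℝ) * (q m ν θ x i * (gg m i - BB m ν θ x))) / (x * ZZ m ν θ x)

include hν hθ in
lemma hasDerivAt_BB {x : ℝ} (hx : 0 < x) : HasDerivAt (BB m ν θ) (B1 m ν θ x) x := by
  have hZ := ZZ_pos m ν θ hν hθ hx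
  have h1 := (rap_aa m ν θ hν hθ).deriv x
  have h2 := (rap_gaa m ν θ hν hθ).deriv x
  have hZd : HasDerivAt (ZZ m ν θ) (∑' i, aa m ν θ i * (i * x ^ (i - 1))) x := h1.2
  have e : (fun y => ∑' i, gg m i * q m ν θ y i) = ser (fun i => gg m i * aa m ν θ i) := by
    funext y; unfold ser q; exact tsum_congr fun i => by ring
  have hNd : HasDerivAt (fun y => ∑' i, gg m i * q m ν θ y i)
      (∑' i, gg m i * aa m ν θ i * (i * x ^ (i - 1))) x := by rw [e]; exact h2.2
  have hdiv := hNd.div hZd hZ.ne'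
  have hfun : BB m ν θ = fun y => (∑' i, gg m i * q m ν θ y i) / ZZ m ν θ y := rfl
  rw [hfun]
  refine hdiv.congr_deriv ?_
  have hb : ∀ i, |gg m i - BB m ν θ x| ≤ m + |BB m ν θ x| := by
    intro i
    calc |gg m i - BB m ν θ x| ≤ |gg m i| + |BB m ν θ x| := abs_sub _ _
      _ ≤ _ := by rw [abs_of_nonneg (gg_nonneg m i)]; linarith [gg_le m i]
  have hpow : ∀ i : ℕ, (i : ℝ) * x ^ i = x * (i * x ^ (i - 1)) := by
    intro i
    rcases Nat.eq_zero_or_pos i with rfl | hi
    · simp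
    · have : x ^ i = x * x ^ (i - 1) := by rw [← pow_succ']; congr 1; omega
      rw [this]; ring
  have e3 : ∑' i : ℕ, (i : ℝ) * (q m ν θ x i * (gg m i - BB m ν θ x)) =
      x * (∑' i, gg m i * aa m ν θ i * (i * x ^ (i - 1))) -
      x * (BB m ν θ x * ∑' i, aa m ν θ i * (i * x ^ (i - 1))) := by
    rw [← tsum_mul_left, ← tsum_mul_left, ← tsum_mul_left, ← Summable.tsum_sub (h2.1.mul_left _)
      ((h1.1.mul_left _).mul_left _)]
    refine tsum_congr fun i => ?_
    have := hpow i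
    unfold q
    linear_combination (aa m ν θ i * (gg m i - BB m ν θ x)) * this
  have hBZ : (∑' i, gg m i * q m ν θ x i) = BB m ν θ x * ZZ m ν θ x := by
    unfold BB; field_simp
  unfold B1
  rw [e3, hBZ]
  field_simp

include hν hθ in
lemma DD_le_zero_idx (hm : 1 ≤ m) {x : ℝ} (hx : 0 < x) (i : ℕ) :
    |DD m ν θ x i| ≤ BB m ν θ x / x := by
  rw [abs_of_nonneg (DD_nonneg m ν θ hν hθ hx i)]
  exact (DD_strictAnti m ν θ hν hθ hm hx).antitone (Nat.zero_le i)

include hν hθ in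
/-- `B'` is the stationary mean of the Poisson solution. -/
lemma hasSum_DD (hm : 1 ≤ m) {x : ℝ} (hx : 0 < x) :
    HasSum (fun i => q m ν θ x i * DD m ν θ x i) (ZZ m ν θ x * B1 m ν θ x) := by
  have hZ := ZZ_pos m ν θ hν hθ hx
  have hsum := qf_summable m ν θ hν hθ x (DD m ν θ x) _ (DD_le_zero_idx m ν θ hν hθ hm hx)
  have hid : ∀ n : ℕ, x * ((n : ℝ) * (q m ν θ x n * DD m ν θ x n) -
      ∑ j ∈ Finset.range n, q m ν θ x j * DD m ν θ x j) =
      - ∑ j ∈ Finset.range (n + 1), (j : ℝ) * (q m ν θ x j * (gg m j - BB m ν θ x)) := by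
    intro n
    induction n with
    | zero => simp
    | succ n ih =>
      rw [Finset.sum_range_succ (fun j => q m ν θ x j * DD m ν θ x j),
        Finset.sum_range_succ (fun j : ℕ => (j : ℝ) * (q m ν θ x j * (gg m j - BB m ν θ x))),
        neg_add, ← ih]
      have h1 := DD_sum m ν θ hν hθ hx n
      have h2 := DD_sum m ν θ hν hθ hx (n + 1)
      rw [Finset.sum_range_succ, ← h1] at h2
      push_cast
      linear_combination ((n : ℝ) + 1) * h2
  have hb : ∀ i, |gg m i - BB m ν θ x| ≤ m + |BB m ν θ x| := by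
    intro i
    calc |gg m i - BB m ν θ x| ≤ |gg m i| + |BB m ν θ x| := abs_sub _ _
      _ ≤ _ := by rw [abs_of_nonneg (gg_nonneg m i)]; linarith [gg_le m i]
  have hs2 := iqf_summable m ν θ hν hθ x (fun i => gg m i - BB m ν θ x) _ hb
  have hs3 := iqf_summable m ν θ hν hθ x (DD m ν θ x) _ (DD_le_zero_idx m ν θ hν hθ hm hx)
  have t1 : Tendsto (fun n : ℕ => (n : ℝ) * (q m ν θ x n * DD m ν θ x n)) atTop (𝓝 0) :=
    hs3.tendsto_atTop_zero
  have t2 := hsum.hasSum.tendsto_sum_nat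
  have t3 := (tendsto_add_atTop_iff_nat 1).mpr hs2.hasSum.tendsto_sum_nat
  have t4 := (t1.sub t2).const_mul x
  simp_rw [hid] at t4
  have t5 := tendsto_nhds_unique t4 t3.neg
  have : ∑' i, q m ν θ x i * DD m ν θ x i = ZZ m ν θ x * B1 m ν θ x := by
    unfold B1
    generalize (∑' i : ℕ, (i : ℝ) * (q m ν θ x i * (gg m i - BB m ν θ x))) = S at t5 ⊢
    generalize (∑' i : ℕ, q m ν θ x i * DD m ν θ x i) = S' at t5 ⊢
    have : S = x * S' := by linarith
    rw [this]
    field_simp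
  rw [← this]
  exact hsum.hasSum

include hν hθ in
lemma hasSum_center2 (hm : 1 ≤ m) {x : ℝ} (hx : 0 < x) :
    HasSum (fun i => q m ν θ x i * (DD m ν θ x i - B1 m ν θ x)) 0 := by
  have h1 := (hasSum_DD m ν θ hν hθ hm hx).sub
    ((q_summable m ν θ hν hθ x).hasSum.mul_left (B1 m ν θ x))
  have h3 : (fun i => q m ν θ x i * (DD m ν θ x i - B1 m ν θ x)) =
      fun i => q m ν θ x i * DD m ν θ x i - B1 m ν θ x * q m ν θ x i := by funext i; ring
  have h4 : ZZ m ν θ x * B1 m ν θ x - B1 m ν θ x * ∑' i, q m ν θ x i = 0 := by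
    change _ - B1 m ν θ x * ZZ m ν θ x = 0
    ring
  rw [h3]; rw [h4] at h1; exact h1

/-- derivative of the Poisson solution in the arrival rate -/
noncomputable def D1 (x : ℝ) : ℕ → ℝ
  | 0 => (B1 m ν θ x - DD m ν θ x 0) / x
  | i + 1 => (dd m ν θ (i + 1) * D1 x i + B1 m ν θ x - DD m ν θ x (i + 1)) / x

include hν hθ in
lemma hasDerivAt_DD {x : ℝ} (hx : 0 < x) (i : ℕ) :
    HasDerivAt (fun y => DD m ν θ y i) (D1 m ν θ x i) x := by
  have hB := hasDerivAt_BB m ν θ hν hθ hx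
  induction i with
  | zero =>
    have h := hB.div (hasDerivAt_id x) hx.ne'
    have e : (fun y => DD m ν θ y 0) = fun y => BB m ν θ y / id y := rfl
    rw [e]
    refine h.congr_deriv ?_
    simp only [D1, DD, id]
    field_simp
  | succ i ih =>
    have h := ((((ih.const_mul (dd m ν θ (i + 1))).add hB).sub_const (gg m (i + 1)))).div
      (hasDerivAt_id x) hx.ne'
    have e : (fun y => DD m ν θ y (i + 1)) =
      fun y => (dd m ν θ (i + 1) * DD m ν θ y i + BB m ν θ y - gg m (i + 1)) / id y := rfl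
    rw [e]
    refine h.congr_deriv ?_
    simp only [D1, DD, id, Pi.add_apply]
    field_simp

include hν hθ in
lemma D1_sum {x : ℝ} (hx : 0 < x) (i : ℕ) : x * (q m ν θ x i * D1 m ν θ x i) =
    - ∑ k ∈ Finset.range (i + 1), q m ν θ x k * (DD m ν θ x k - B1 m ν θ x) := by
  induction i with
  | zero =>
    simp only [D1, zero_add, Finset.sum_range_one, q_zero]
    field_simp; ring
  | succ i ih =>
    rw [Finset.sum_range_succ, neg_add, ← ih]
    have h1 := q_succ m ν θ hν hθ x i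
    have h3 : x * (q m ν θ x (i + 1) * D1 m ν θ x (i + 1)) =
        q m ν θ x (i + 1) * (dd m ν θ (i + 1) * D1 m ν θ x i + B1 m ν θ x - DD m ν θ x (i + 1)) := by
      simp only [D1]
      field_simp
    rw [h3]
    linear_combination (D1 m ν θ x i) * h1

include hν hθ in
lemma D1_nonpos (hm : 1 ≤ m) {x : ℝ} (hx : 0 < x) (i : ℕ) : D1 m ν θ x i ≤ 0 := by
  have h1 := D1_sum m ν θ hν hθ hx i
  have h2 := partial_nonneg (q_pos m ν θ hν hθ hx)
    (f := fun k => DD m ν θ x k - B1 m ν θ x) (fun a b h => by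
      have := (DD_strictAnti m ν θ hν hθ hm hx).antitone h; simp only; linarith)
    (hasSum_center2 m ν θ hν hθ hm hx) (i + 1)
  have h3 := q_pos m ν θ hν hθ hx i
  by_contra hcon
  push Not at hcon
  have : 0 < x * (q m ν θ x i * D1 m ν θ x i) := by positivity
  linarith

include hν hθ in
lemma DD_antitone_x (hm : 1 ≤ m) (i : ℕ) : AntitoneOn (fun y => DD m ν θ y i) (Ioi 0) := by
  refine antitoneOn_of_deriv_nonpos (convex_Ioi 0) ?_ ?_ ?_
  · intro y hy
    exact (hasDerivAt_DD m ν θ hν hθ hy i).continuousAt.continuousWithinAt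
  · rw [interior_Ioi]
    intro y hy
    exact (hasDerivAt_DD m ν θ hν hθ hy i).differentiableAt.differentiableWithinAt
  · rw [interior_Ioi]
    intro y hy
    rw [(hasDerivAt_DD m ν θ hν hθ hy i).deriv]
    exact D1_nonpos m ν θ hν hθ hm hy i

include hν hθ in
lemma B1_strictAnti (hm : 1 ≤ m) : StrictAntiOn (B1 m ν θ) (Ioi 0) := by
  intro x hx y hy hxy
  have hx' : 0 < x := hx
  have hy' : 0 < y := hy
  have hZy := ZZ_pos m ν θ hν hθ hy'
  have hr : 1 < y / x := by rwa [one_lt_div hx']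
  have hq : ∀ i, q m ν θ x i * (y / x) ^ i = q m ν θ y i := by
    intro i; unfold q; rw [div_pow]; field_simp
  have hbd : ∀ i, |DD m ν θ x i - B1 m ν θ x| ≤ BB m ν θ x / x + |B1 m ν θ x| := by
    intro i
    calc |DD m ν θ x i - B1 m ν θ x| ≤ |DD m ν θ x i| + |B1 m ν θ x| := abs_sub _ _
      _ ≤ _ := by linarith [DD_le_zero_idx m ν θ hν hθ hm hx' i]
  have hs := qf_summable m ν θ hν hθ y (fun i => DD m ν θ x i - B1 m ν θ x) _ hbd
  have h1 := stoch_mono (q_pos m ν θ hν hθ hx')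
    (f := fun k => DD m ν θ x k - B1 m ν θ x) (fun a b h => by
      have := (DD_strictAnti m ν θ hν hθ hm hx') h; simp only; linarith)
    (hasSum_center2 m ν θ hν hθ hm hx') hr (by simp_rw [hq]; exact hs)
  simp_rw [hq] at h1
  have h2 : ZZ m ν θ y * B1 m ν θ y ≤ ∑' i, q m ν θ y i * DD m ν θ x i := by
    rw [← (hasSum_DD m ν θ hν hθ hm hy').tsum_eq]
    refine Summable.tsum_le_tsum (fun i => ?_) (hasSum_DD m ν θ hν hθ hm hy').summable
      (qf_summable m ν θ hν hθ y _ _ (DD_le_zero_idx m ν θ hν hθ hm hx'))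
    exact mul_le_mul_of_nonneg_left (DD_antitone_x m ν θ hν hθ hm i hx hy hxy.le)
      (q_pos m ν θ hν hθ hy' i).le
  have h3 : ∑' i, q m ν θ y i * (DD m ν θ x i - B1 m ν θ x) =
      (∑' i, q m ν θ y i * DD m ν θ x i) - B1 m ν θ x * ZZ m ν θ y := by
    unfold ZZ
    rw [← tsum_mul_left, ← Summable.tsum_sub
      (qf_summable m ν θ hν hθ y _ _ (DD_le_zero_idx m ν θ hν hθ hm hx'))
      ((q_summable m ν θ hν hθ y).mul_left _)]
    exact tsum_congr fun i => by ring
  rw [h3] at h1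
  by_contra hcon
  push Not at hcon
  have := mul_le_mul_of_nonneg_left hcon hZy.le
  linarith

include hν hθ in
lemma B1_bounds (hm : 1 ≤ m) {x : ℝ} (hx : 0 < x) :
    0 < B1 m ν θ x ∧ B1 m ν θ x < 1 / ν ∧ B1 m ν θ x ≤ m / x := by
  have hZ := ZZ_pos m ν θ hν hθ hx
  have hS := hasSum_DD m ν θ hν hθ hm hx
  have hB := BB_pos m ν θ hν hθ hm hx
  have hBm := BB_lt_m m ν θ hν hθ hm hx
  have hBν := nu_BB_lt m ν θ hν hθ hx
  have h1 : 0 < ZZ m ν θ x * B1 m ν θ x := by
    rw [← hS.tsum_eq]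
    refine hS.summable.tsum_pos (fun i => mul_nonneg (q_pos m ν θ hν hθ hx i).le
      (DD_nonneg m ν θ hν hθ hx i)) 0 (mul_pos (q_pos m ν θ hν hθ hx 0) ?_)
    change 0 < BB m ν θ x / x
    positivity
  have h2 : ZZ m ν θ x * B1 m ν θ x ≤ ZZ m ν θ x * (BB m ν θ x / x) := by
    rw [← hS.tsum_eq]
    unfold ZZ
    rw [← tsum_mul_right]
    refine Summable.tsum_le_tsum (fun i => ?_) hS.summable
      ((q_summable m ν θ hν hθ x).mul_right _)
    exact mul_le_mul_of_nonneg_left ((DD_strictAnti m ν θ hν hθ hm hx).antitone (Nat.zero_le i))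
      (q_pos m ν θ hν hθ hx i).le
  have h3 : B1 m ν θ x ≤ BB m ν θ x / x := le_of_mul_le_mul_left h2 hZ
  refine ⟨pos_of_mul_pos_right h1 hZ.le, lt_of_le_of_lt h3 ?_, le_trans h3 ?_⟩
  · rw [div_lt_div_iff₀ hx hν]; linarith
  · exact div_le_div_of_nonneg_right hBm.le hx.le

include hν hθ in
lemma BB_analytic {x : ℝ} (hx : 0 < x) : AnalyticAt ℝ (BB m ν θ) x := by
  have e : (fun y => ∑' i, gg m i * q m ν θ y i) = ser (fun i => gg m i * aa m ν θ i) := by
    funext y; unfold ser q; exact tsum_congr fun i => by ring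
  have h1 : AnalyticAt ℝ (fun y => ∑' i, gg m i * q m ν θ y i) x := by
    rw [e]; exact (rap_gaa m ν θ hν hθ).analytic x
  have h2 : AnalyticAt ℝ (ZZ m ν θ) x := (rap_aa m ν θ hν hθ).analytic x
  exact h1.div h2 (ZZ_pos m ν θ hν hθ hx).ne'

end core


/-! ### The queue -/

/-- the effective rate of a busy server -/
noncomputable def nuOf (D : Discipline) (μ θ : ℝ) : ℝ :=
  match D with
  | .DBS => μ
  | .DES => μ + θ

lemma min_cast (i m : ℕ) : min (i : ℝ) (m : ℝ) = gg m i := by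
  unfold gg; push_cast; rfl

lemma sub_cast (i m : ℕ) : max ((i : ℝ) - m) 0 = ((i - m : ℕ) : ℝ) := by
  rcases le_total m i with h | h
  · rw [Nat.cast_sub h, max_eq_left]
    have : (m : ℝ) ≤ i := by exact_mod_cast h
    linarith
  · rw [Nat.sub_eq_zero_of_le h, max_eq_right]
    · simp
    · have : (i : ℝ) ≤ m := by exact_mod_cast h
      linarith

lemma cast_split (i m : ℕ) : (i : ℝ) = gg m i + ((i - m : ℕ) : ℝ) := by
  unfold gg; exact_mod_cast (by omega : i = min i m + (i - m))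

lemma deathRate_eq (D : Discipline) (m : ℕ) (μ θ : ℝ) (i : ℕ) :
    deathRate D m μ θ i = dd m (nuOf D μ θ) θ i := by
  unfold deathRate dd
  rw [min_cast]
  cases D with
  | DBS => simp only [L, nuOf]; rw [sub_cast]; ring
  | DES =>
    simp only [L, nuOf]
    linear_combination θ * cast_split i m

lemma L_eq (D : Discipline) (m : ℕ) (μ θ : ℝ) (i : ℕ) :
    L D m θ i = dd m (nuOf D μ θ) θ i - μ * gg m i := by
  rw [← deathRate_eq]
  unfold deathRate
  rw [min_cast]; ring

lemma weight_eq (D : Discipline) (m : ℕ) (μ θ lam : ℝ) (i : ℕ) :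
    weight D m μ θ lam i = q m (nuOf D μ θ) θ lam i := by
  induction i with
  | zero => simp [weight, q, aa]
  | succ i ih =>
    have h1 : weight D m μ θ lam (i + 1) =
        weight D m μ θ lam i * (lam / deathRate D m μ θ (i + 1)) := by
      unfold weight
      rw [Finset.prod_Icc_succ_top (by omega)]
    rw [h1, ih, deathRate_eq]
    unfold q
    rw [aa_succ, pow_succ]
    ring

lemma nuOf_pos (D : Discipline) {μ θ : ℝ} (hμ : 0 < μ) (hθ : 0 < θ) : 0 < nuOf D μ θ := by
  cases D with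
  | DBS => exact hμ
  | DES => exact add_pos hμ hθ

lemma le_nuOf (D : Discipline) {μ θ : ℝ} (hθ : 0 < θ) : μ ≤ nuOf D μ θ := by
  cases D with
  | DBS => exact le_refl _
  | DES => simp only [nuOf]; linarith

lemma hasSum_statLaw (D : Discipline) (m : ℕ) {μ θ lam : ℝ} (hμ : 0 < μ) (hθ : 0 < θ)
    (hl : 0 < lam) : HasSum (statLaw D m μ θ lam) 1 := by
  have hν := nuOf_pos D hμ hθ
  have hZ := ZZ_pos m _ θ hν hθ hl
  have h1 := (q_summable m _ θ hν hθ lam).hasSum.div_const (ZZ m (nuOf D μ θ) θ lam)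
  have e : statLaw D m μ θ lam = fun i => q m (nuOf D μ θ) θ lam i / ZZ m (nuOf D μ θ) θ lam := by
    funext i
    unfold statLaw ZZ
    simp_rw [weight_eq]
  rw [e]
  have h2 : (∑' i, q m (nuOf D μ θ) θ lam i) / ZZ m (nuOf D μ θ) θ lam = 1 := div_self hZ.ne'
  rw [h2] at h1
  exact h1

lemma hasSum_ell (D : Discipline) (m : ℕ) {μ θ lam : ℝ} (hμ : 0 < μ) (hθ : 0 < θ)
    (hl : 0 < lam) : HasSum (fun i => statLaw D m μ θ lam i * L D m θ i)
      (lam - μ * BB m (nuOf D μ θ) θ lam) := by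
  have hν := nuOf_pos D hμ hθ
  have hZ := ZZ_pos m _ θ hν hθ hl
  have h1 := (hasSum_death m _ θ hν hθ (x := lam)).sub
    ((gq_summable m _ θ hν hθ lam).hasSum.mul_left μ)
  have h2 := h1.div_const (ZZ m (nuOf D μ θ) θ lam)
  have h3 : (lam * ZZ m (nuOf D μ θ) θ lam - μ * ∑' i, gg m i * q m (nuOf D μ θ) θ lam i) /
      ZZ m (nuOf D μ θ) θ lam = lam - μ * BB m (nuOf D μ θ) θ lam := by
    unfold BB
    rw [sub_div, mul_div_cancel_right₀ _ hZ.ne']
    ring
  rw [h3] at h2
  have e : (fun i => statLaw D m μ θ lam i * L D m θ i) = fun i =>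
      (dd m (nuOf D μ θ) θ i * q m (nuOf D μ θ) θ lam i - μ * (gg m i * q m (nuOf D μ θ) θ lam i)) /
        ZZ m (nuOf D μ θ) θ lam := by
    funext i
    rw [L_eq D m μ θ i]
    unfold statLaw ZZ
    simp_rw [weight_eq]
    ring
  rw [e]; exact h2

lemma ell_eq (D : Discipline) (m : ℕ) {μ θ lam : ℝ} (hμ : 0 < μ) (hθ : 0 < θ) (hl : 0 < lam) :
    ell D m μ θ lam = lam - μ * BB m (nuOf D μ θ) θ lam :=
  (hasSum_ell D m hμ hθ hl).tsum_eq

lemma hasDerivAt_ell (D : Discipline) (m : ℕ) {μ θ lam : ℝ} (hμ : 0 < μ) (hθ : 0 < θ)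
    (hl : 0 < lam) : HasDerivAt (ell D m μ θ) (1 - μ * B1 m (nuOf D μ θ) θ lam) lam := by
  have hν := nuOf_pos D hμ hθ
  have h1 := (hasDerivAt_id lam).sub ((hasDerivAt_BB m _ θ hν hθ hl).const_mul μ)
  refine h1.congr_of_eventuallyEq ?_
  filter_upwards [Ioi_mem_nhds hl] with y hy
  exact ell_eq D m hμ hθ hy

/-- **Convexity of the mean abandonment rate.**  For every number of servers `m ≥ 1`, service rate
`μ > 0`, deadline rate `θ > 0` and both disciplines, the mean abandonment rate `ℓ` is well defined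
on `(0,∞)`, strictly increasing and strictly convex, it is real analytic (in particular its
derivative is smooth) and its derivative increases strictly to `1`. -/
theorem result (D : Discipline) (m : ℕ) (hm : 1 ≤ m) (μ θ : ℝ) (hμ : 0 < μ) (hθ : 0 < θ) :
    (∀ lam : ℝ, 0 < lam → HasSum (statLaw D m μ θ lam) 1 ∧
      HasSum (fun i => statLaw D m μ θ lam i * L D m θ i) (ell D m μ θ lam)) ∧
    StrictMonoOn (ell D m μ θ) (Ioi 0) ∧
    StrictConvexOn ℝ (Ioi 0) (ell D m μ θ) ∧
    AnalyticOnNhd ℝ (ell D m μ θ) (Ioi 0) ∧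
    ContDiffOn ℝ (⊤ : ℕ∞) (deriv (ell D m μ θ)) (Ioi 0) ∧
    StrictMonoOn (deriv (ell D m μ θ)) (Ioi 0) ∧
    Tendsto (deriv (ell D m μ θ)) atTop (𝓝 1) := by
  have hν := nuOf_pos D hμ hθ
  have hder : ∀ y ∈ Ioi (0 : ℝ), deriv (ell D m μ θ) y = 1 - μ * B1 m (nuOf D μ θ) θ y :=
    fun y hy => (hasDerivAt_ell D m hμ hθ hy).deriv
  have hmono : StrictMonoOn (deriv (ell D m μ θ)) (Ioi 0) := by
    intro x hx y hy hxy
    rw [hder x hx, hder y hy]
    have := B1_strictAnti m _ θ hν hθ hm hx hy hxy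
    nlinarith
  have hcont : ContinuousOn (ell D m μ θ) (Ioi 0) := fun y hy =>
    (hasDerivAt_ell D m hμ hθ hy).continuousAt.continuousWithinAt
  have han : AnalyticOnNhd ℝ (ell D m μ θ) (Ioi 0) := by
    intro y hy
    have h1 : AnalyticAt ℝ (fun z => z - μ * BB m (nuOf D μ θ) θ z) y :=
      analyticAt_id.sub (analyticAt_const.mul (BB_analytic m _ θ hν hθ hy))
    refine h1.congr ?_
    filter_upwards [Ioi_mem_nhds hy] with z hz
    exact (ell_eq D m hμ hθ hz).symm
  refine ⟨fun lam hl => ⟨hasSum_statLaw D m hμ hθ hl, ?_⟩, ?_, ?_, han, ?_, hmono, ?_⟩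
  · rw [ell_eq D m hμ hθ hl]; exact hasSum_ell D m hμ hθ hl
  · refine strictMonoOn_of_deriv_pos (convex_Ioi 0) hcont ?_
    rw [interior_Ioi]
    intro y hy
    rw [hder y hy]
    have h1 := (B1_bounds m _ θ hν hθ hm hy).2.1
    have h2 : μ * B1 m (nuOf D μ θ) θ y < μ * (1 / nuOf D μ θ) := mul_lt_mul_of_pos_left h1 hμ
    have h3 : μ * (1 / nuOf D μ θ) ≤ 1 := by
      rw [mul_one_div, div_le_one hν]; exact le_nuOf D hθ
    linarith
  · refine StrictMonoOn.strictConvexOn_of_deriv (convex_Ioi 0) hcont ?_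
    rw [interior_Ioi]; exact hmono
  · have h1 : AnalyticOnNhd ℝ (deriv (ell D m μ θ)) (Ioi 0) := han.deriv
    exact h1.contDiffOn (uniqueDiffOn_Ioi 0)
  · have h1 : Tendsto (fun y : ℝ => 1 - μ * ((m : ℝ) / y)) atTop (𝓝 (1 - μ * 0)) :=
      tendsto_const_nhds.sub ((tendsto_const_nhds.div_atTop tendsto_id).const_mul μ)
    rw [mul_zero, sub_zero] at h1
    refine tendsto_of_tendsto_of_tendsto_of_le_of_le' h1 tendsto_const_nhds ?_ ?_
    · filter_upwards [Ioi_mem_atTop 0] with y hy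
      rw [hder y hy]
      have := (B1_bounds m _ θ hν hθ hm hy).2.2
      nlinarith
    · filter_upwards [Ioi_mem_atTop 0] with y hy
      rw [hder y hy]
      have := (B1_bounds m _ θ hν hθ hm hy).1
      nlinarith

end Pool.Agent.Results.MP_e714e3_pr.ConvexAbandonment
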